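import Pool.Agent.W935.SK.Stm

/-!
# Project SK: a stronger form of the part BI
-/

set_option autoImplicit false

namespace Pool.Agent.W935.SK

open Polynomial Finset Pool.Agent.H884R2.Sko Pool.Agent.H692R2.USS
open scoped Classical

/-- BI2: the two-sided sequence and integral sequences -/
def S_BI2 : Prop := ∀ (d : ℕ) (hd : 1 ≤ d) (c : Fin d → ℤ), c ⟨d - 1, by omega⟩ ≠ 0 → ∀ m : ℤ,
  ∃ (L : (Fin d → ℤ) →ₗ[ℤ] (Fin d → ℤ)) (N k : ℕ) (s : ℤ), 1 ≤ k ∧ s ≠ 0 ∧ (N : ℤ) = m + k ∧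
    (∀ a, ∀ i : Fin d, seq (fun i => c (Fin.rev i)) (L a) (k + i) =
        s * seq (fun i => c (Fin.rev i)) a (N + i)) ∧
    (∀ p : ℕ, p.Prime → ¬ (p : ℤ) ∣ c ⟨d - 1, by omega⟩ → ∀ a, (∀ i, (p : ℤ) ∣ L a i) →
      ∀ i, (p : ℤ) ∣ a i) ∧
    ∀ a, (∃ w, IsBi c a w) ∧ ∀ w, IsBi c a w →
      (∀ n : ℕ, w (n : ℤ) = (seq (fun i => c (Fin.rev i)) a n : ℤ)) ∧
      (∀ n : ℕ, ((seq (fun i => c (Fin.rev i)) (L a) n : ℤ) : ℚ) = (s : ℚ) * w (m + n))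

end Pool.Agent.W935.SK
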