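import Pool.Agent.W935.SK.Stm

/-!
# Project SK: part E1 (the argument is the one of `Pool.Agent.H884R2.Sko.Fiber`)
-/

set_option autoImplicit false

namespace Pool.Agent.W935.SK

open Polynomial Finset Pool.Agent.H884R2.Sko

theorem order_of_splits (p l : ℕ) [Fact p.Prime] (hl : 1 ≤ l) {d : ℕ} (hd : 1 ≤ d)
    (c : Fin d → ZMod p) (h1 : (chi c).Splits) (h2 : (expand (ZMod p) l (chi c)).Splits)
    (h3 : (cyclotomic l (ZMod p)).Splits) (hpl : ¬ p ∣ l) (hsep : (chi c).Separable)
    (h0 : (chi c).coeff 0 ≠ 0) :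
    ∃ T : ℕ, 0 < T ∧ l * T ≤ p ∧ chi c ∣ X ^ T - 1 := by
  have hp : p.Prime := Fact.out
  have hne : chi c ≠ 0 := (chi_monic c).ne_zero
  set S : Finset (ZMod p) := (chi c).roots.toFinset with hS
  have hnd : (chi c).roots.Nodup := nodup_roots hsep
  have hval : S.val = (chi c).roots := by
    rw [hS, Multiset.toFinset_val, hnd.dedup]
  have hpoly : poly S = chi c := by
    unfold poly
    rw [Finset.prod_eq_multiset_prod, hval]
    exact (h1.eq_prod_roots_of_monic (chi_monic c)).symm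
  have hlne : NeZero ((l : ℕ) : ZMod p) := by
    refine ⟨fun h => hpl ?_⟩
    rwa [ZMod.natCast_eq_zero_iff] at h
  -- `l` divides `p - 1`
  have hdvd : l ∣ p - 1 := by
    obtain ⟨μ, hμ⟩ := h3.exists_eval_eq_zero (by
      rw [degree_cyclotomic]
      have := Nat.totient_pos.2 hl
      exact_mod_cast this.ne')
    have hprim : IsPrimitiveRoot μ l := isRoot_cyclotomic_iff.1 hμ
    apply hprim.dvd_of_pow_eq_one
    apply ZMod.pow_card_sub_one_eq_one
    rintro rfl
    have := hprim.pow_eq_one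
    rw [zero_pow (by omega)] at this
    exact zero_ne_one this
  obtain ⟨T, hT⟩ := hdvd
  have hp1 : 1 ≤ p - 1 := by have := hp.two_le; omega
  have hTpos : 0 < T := by
    rcases Nat.eq_zero_or_pos T with h | h
    · subst h; omega
    · exact h
  have hST : ∀ a ∈ S, a ^ T = 1 := by
    intro a ha
    rw [hS, Multiset.mem_toFinset, mem_roots hne] at ha
    have ha0 : a ≠ 0 := by
      rintro rfl
      rw [IsRoot, ← coeff_zero_eq_eval_zero] at ha
      exact h0 ha
    have h4 : (X ^ l - C a : (ZMod p)[X]) ∣ expand (ZMod p) l (chi c) := by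
      have h5 := map_dvd (expand (ZMod p) l) (dvd_iff_isRoot.2 ha)
      rwa [map_sub, expand_X, expand_C] at h5
    have h6 : expand (ZMod p) l (chi c) ≠ 0 := by
      rw [Ne, expand_eq_zero (by omega)]; exact hne
    have h7 := h2.of_dvd h6 h4
    obtain ⟨β, hβ⟩ := h7.exists_eval_eq_zero (by
      rw [degree_X_pow_sub_C (by omega)]
      exact_mod_cast (by omega : l ≠ 0))
    rw [eval_sub, eval_pow, eval_X, eval_C, sub_eq_zero] at hβ
    have hβ0 : β ≠ 0 := by
      rintro rfl
      rw [zero_pow (by omega)] at hβ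
      exact ha0 hβ.symm
    rw [← hβ, ← pow_mul, ← hT]
    exact ZMod.pow_card_sub_one_eq_one hβ0
  refine ⟨T, hTpos, by omega, ?_⟩
  rw [← hpoly]
  exact poly_dvd S T hST

theorem e1 : S_E1 := by
  intro d c hd h0 hsq l N hl
  obtain ⟨r, hr0, hr⟩ := separable_mod (chi c) hsq
  set G : ℤ[X] := chi c * (expand ℤ l (chi c) * cyclotomic l ℤ) with hG
  have hGm : G.Monic := (chi_monic c).mul (((chi_monic c).expand (by omega)).mul
    (cyclotomic.monic l ℤ))
  obtain ⟨p, hp, hpN, hsp⟩ := exists_split G hGm (N + l + r.natAbs + ((chi c).coeff 0).natAbs)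
  have hfact : Fact p.Prime := ⟨hp⟩
  have hGne : G.map (Int.castRingHom (ZMod p)) ≠ 0 := (hGm.map _).ne_zero
  have hdv : ∀ z : ℤ, z ≠ 0 → z.natAbs < p → ¬ (p : ℤ) ∣ z := by
    intro z hz hzp hdvd
    have := Int.natAbs_dvd_natAbs.2 hdvd
    rw [Int.natAbs_natCast] at this
    exact absurd (Nat.le_of_dvd (Int.natAbs_pos.2 hz) this) (not_le.2 hzp)
  have hcm : (chi c).map (Int.castRingHom (ZMod p)) = chi (fun i => (c i : ZMod p)) := by
    rw [chi_map]; rfl
  have e1 : (chi (fun i => (c i : ZMod p))) ∣ G.map (Int.castRingHom (ZMod p)) := by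
    rw [← hcm, hG, Polynomial.map_mul]; exact dvd_mul_right _ _
  have e2 : expand (ZMod p) l (chi (fun i => (c i : ZMod p))) ∣
      G.map (Int.castRingHom (ZMod p)) := by
    rw [← hcm, ← map_expand, hG, Polynomial.map_mul, Polynomial.map_mul]
    exact (dvd_mul_right _ _).mul_left _
  have e3 : cyclotomic l (ZMod p) ∣ G.map (Int.castRingHom (ZMod p)) := by
    rw [← map_cyclotomic l (Int.castRingHom (ZMod p)), hG, Polynomial.map_mul,
      Polynomial.map_mul]
    exact (dvd_mul_left _ _).mul_left _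
  have hc0 : ¬ (p : ℤ) ∣ (chi c).coeff 0 := hdv _ h0 (by omega)
  refine ⟨p, hp, by omega, hc0, ?_⟩
  apply order_of_splits p l hl hd _ (hsp.of_dvd hGne e1) (hsp.of_dvd hGne e2)
    (hsp.of_dvd hGne e3)
  · intro h
    exact absurd (Nat.le_of_dvd (by omega) h) (by omega)
  · rw [← hcm]
    exact hr p hp (hdv r hr0 (by omega))
  · rw [← hcm, coeff_map, eq_intCast, Ne, ZMod.intCast_zmod_eq_zero_iff_dvd]
    exact hc0

end Pool.Agent.W935.SK
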