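import Pool.Agent.W935.SK.Stm2
import Pool.Agent.H684R3.Smo.Stmts

/-!
# Project SK: quantitative version
-/

set_option autoImplicit false

namespace Pool.Agent.W935.SK

open Polynomial Finset Pool.Agent.H884R2.Sko Pool.Agent.H692R2.USS
open scoped Classical

/-- PRIMEF: the primes with certificates outside one half of the residue classes contain the large
primes that split a fixed polynomial. -/
def S_PRIMEF : Prop := ∀ (d : ℕ) (c : Fin d → ℤ), 2 ≤ d → (chi c).coeff 0 ≠ 0 →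
  Squarefree ((chi c).map (Int.castRingHom ℚ)) →
  (∀ b : ℕ, 1 ≤ b → ∀ r : ℤ, ¬ chi c ∣ X ^ b - C r) →
  ∃ (g : ℤ[X]) (p₀ : ℕ), g.Monic ∧ ∀ p : ℕ, p.Prime → p₀ ≤ p →
    (g.map (Int.castRingHom (ZMod p))).Splits → ∃ (b v : ℕ) (lam : ℤ)
      (Ω : Finset (Fin d → ZMod p)), 2 * b ≤ p ∧ 2 * Ω.card ≤ p ^ (d - 1) ∧
      ∀ a : Fin d → ℤ, seq c a 0 = 0 → (fun i => (a i : ZMod p)) ∉ Ω → Cert c a p b v lam

/-- Q0: power saving and primes of polylogarithmic size, for the sequences with `u_0 = 0`. -/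
def S_Q0 : Prop := ∀ (d : ℕ) (c : Fin d → ℤ), 2 ≤ d → (chi c).coeff 0 ≠ 0 →
  Squarefree ((chi c).map (Int.castRingHom ℚ)) →
  (∀ b : ℕ, 1 ≤ b → ∀ r : ℤ, ¬ chi c ∣ X ^ b - C r) →
  ∃ α δ : ℝ, 0 < α ∧ 0 < δ ∧ ∃ H₀ : ℕ, ∀ H : ℕ, H₀ ≤ H →
    (((box (0 : Fin d → ℤ) H).filter (fun a => seq c a 0 = 0 ∧
      ¬ ∃ (p b v : ℕ) (lam : ℤ), (p : ℝ) ≤ Real.log H ^ α ∧ 2 * b ≤ p ∧
        Cert c a p b v lam)).card : ℝ) ≤ (2 * (H : ℝ) + 1) ^ (d - 1) * (H : ℝ) ^ (-δ)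

/-- LOWB: number of lattice points of a hyperplane in a box. -/
def S_LOWB : Prop := ∀ (d : ℕ) (f : Fin d → ℤ), 1 ≤ d → ∃ κ : ℝ, 0 < κ ∧ ∃ H₀ : ℕ, ∀ H : ℕ,
  H₀ ≤ H → κ * (H : ℝ) ^ (d - 1) ≤
    (((box (0 : Fin d → ℤ) H).filter (fun a => ∑ i, f i * a i = 0)).card : ℝ)

end Pool.Agent.W935.SK
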