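import Pool.Agent.W571.SK.Prime
import Pool.Agent.W935.SK.Stm3
import Pool.Agent.W935.SK.E1

/-!
# Project SK: part PRIMEF (the argument is the one of helper571 in `Pool.Agent.W571.SK.Prime`)
-/

set_option autoImplicit false

namespace Pool.Agent.W935.SK

open Polynomial Finset Pool.Agent.H884R2.Sko Pool.Agent.W571.SK
open scoped Classical

theorem prime_core (d : ℕ) (c : Fin (d + 2) → ℤ)
    (hX : ∀ b : ℕ, 1 ≤ b → ∀ r : ℤ, ¬ chi c ∣ X ^ b - C r) (l p : ℕ) (hp : p.Prime)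
    (hp3 : 3 ≤ p) (T : ℕ) (hT : 0 < T) (hlT : l * T ≤ p)
    (hdvd : chi (fun i => (c i : ZMod p)) ∣ X ^ T - 1) :
    ∃ (b v : ℕ) (lam : ℤ) (Ω : Finset (Fin (d + 2) → ZMod p)), l * b ≤ p ∧
      l * Ω.card ≤ p ^ (d + 2 - 1) ∧
      ∀ a : Fin (d + 2) → ℤ, seq c a 0 = 0 → (fun i => (a i : ZMod p)) ∉ Ω →
        Cert c a p b v lam := by
  have : Fact p.Prime := ⟨hp⟩
  set y : ℕ → Fin (d + 2) → ℤ := fun n j => seq c (Pi.single j 1) n with hy
  set cp : Fin (d + 2) → ZMod p := fun i => (c i : ZMod p) with hcp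
  have hycast : ∀ n j, ((y n j : ℤ) : ZMod p) = seq cp (Pi.single j 1) n := by
    intro n j
    have h1 := map_seq (Int.castRingHom (ZMod p)) c (Pi.single j 1) n
    have h2 : (fun i => (Int.castRingHom (ZMod p)) ((Pi.single j 1 : Fin (d + 2) → ℤ) i)) =
        (Pi.single j 1 : Fin (d + 2) → ZMod p) := by
      funext i
      by_cases hi : i = j
      · subst hi
        simp
      · rw [Pi.single_eq_of_ne hi, Pi.single_eq_of_ne hi, map_zero]
    rw [h2] at h1
    exact h1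
  have hy0 : ∀ j, y 0 j = if j = 0 then 1 else 0 := by
    intro j
    show seq c (Pi.single j 1) ((0 : Fin (d + 2)) : ℕ) = _
    rw [seq_init]
    by_cases hj : j = 0
    · subst hj
      simp
    · rw [if_neg hj, Pi.single_eq_of_ne (Ne.symm hj)]
  -- the least `b`
  have hex : ∃ b, 1 ≤ b ∧ ∀ j, j ≠ 0 → (p : ℤ) ∣ y b j := by
    refine ⟨T, hT, fun j hj => ?_⟩
    rw [← ZMod.intCast_zmod_eq_zero_iff_dvd, hycast]
    have h1 := periodic cp (Pi.single j 1) T hdvd 0
    rw [zero_add] at h1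
    rw [h1, ← hycast, hy0, if_neg hj]
    simp
  set b := Nat.find hex with hb
  obtain ⟨hb1, hbd⟩ : 1 ≤ b ∧ ∀ j, j ≠ 0 → (p : ℤ) ∣ y b j := Nat.find_spec hex
  have hbT : b ≤ T := by
    refine Nat.find_min' hex ⟨hT, fun j hj => ?_⟩
    rw [← ZMod.intCast_zmod_eq_zero_iff_dvd, hycast]
    have h1 := periodic cp (Pi.single j 1) T hdvd 0
    rw [zero_add] at h1
    rw [h1, ← hycast, hy0, if_neg hj]
    simp
  have hmin : ∀ n, 0 < n → n < b → ∃ j, j ≠ 0 ∧ ((y n j : ℤ) : ZMod p) ≠ 0 := by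
    intro n hn hnb
    have h1 := Nat.find_min hex hnb
    by_contra hcon
    push Not at hcon
    refine h1 ⟨hn, fun j hj => ?_⟩
    rw [← ZMod.intCast_zmod_eq_zero_iff_dvd]
    exact hcon j hj
  -- `lam`
  have hlam : ¬ (p : ℤ) ∣ y b 0 := by
    intro h0
    have hz : ∀ e : Fin (d + 2) → ZMod p, seq cp e b = 0 := by
      intro e
      rw [seq_lin]
      refine Finset.sum_eq_zero fun j _ => ?_
      rw [← hycast]
      have h1 : (p : ℤ) ∣ y b j := by
        by_cases hj : j = 0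
        · rw [hj]
          exact h0
        · exact hbd j hj
      rw [(ZMod.intCast_zmod_eq_zero_iff_dvd _ _).2 h1, zero_mul]
    have hper : ∀ k, seq cp (Pi.single 0 1) (k * T) = 1 := by
      intro k
      induction k with
      | zero =>
        rw [zero_mul, ← hycast, hy0, if_pos rfl]
        simp
      | succ k ih => rw [add_mul, one_mul, periodic cp _ T hdvd, ih]
    have h2 := hper b
    have h3 : b * T = (b * T - b) + b := by
      have : b ≤ b * T := Nat.le_mul_of_pos_right b hT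
      omega
    rw [h3, seq_shift, hz] at h2
    exact zero_ne_one h2
  -- `v`
  obtain ⟨j1, hj1, hyj1⟩ : ∃ j, j ≠ 0 ∧ y b j ≠ 0 := by
    by_contra hcon
    push Not at hcon
    refine hX b hb1 (y b 0) (dvd_of (by omega) c b (y b 0) fun j => ?_)
    have h1 : seq c (Pi.single j 1) 0 = y 0 j := rfl
    rw [h1, hy0]
    by_cases hj : j = 0
    · rw [if_pos hj, mul_one, hj]
    · rw [if_neg hj, mul_zero]
      exact hcon j hj
  have hvex : ∃ v, ∃ j, j ≠ 0 ∧ ¬ (p : ℤ) ^ (v + 1) ∣ y b j := by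
    refine ⟨(y b j1).natAbs, j1, hj1, fun h1 => ?_⟩
    have h2 := Int.natAbs_dvd_natAbs.2 h1
    rw [Int.natAbs_pow, Int.natAbs_natCast] at h2
    have h3 := Nat.le_of_dvd (Int.natAbs_pos.2 hyj1) h2
    have h4 : (y b j1).natAbs < p ^ (y b j1).natAbs := Nat.lt_pow_self hp.one_lt
    have h5 : p ^ (y b j1).natAbs ≤ p ^ ((y b j1).natAbs + 1) :=
      Nat.pow_le_pow_right hp.pos (Nat.le_succ _)
    omega
  set v := Nat.find hvex with hv
  obtain ⟨j0, hj0, hvj0⟩ : ∃ j, j ≠ 0 ∧ ¬ (p : ℤ) ^ (v + 1) ∣ y b j := Nat.find_spec hvex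
  have hv1 : 1 ≤ v := by
    by_contra hcon
    have h0 : v = 0 := by omega
    rw [h0, zero_add, pow_one] at hvj0
    exact hvj0 (hbd j0 hj0)
  have hvd : ∀ j, j ≠ 0 → (p : ℤ) ^ v ∣ y b j := by
    have h1 := Nat.find_min hvex (show v - 1 < v by omega)
    push Not at h1
    rw [Nat.sub_add_cancel hv1] at h1
    exact h1
  have hβ : ∀ j, ∃ β : ℤ, (j = 0 → β = 0) ∧ (j ≠ 0 → y b j = (p : ℤ) ^ v * β) := by
    intro j
    by_cases hj : j = 0
    · exact ⟨0, fun _ => rfl, fun h => absurd hj h⟩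
    · obtain ⟨β, hβ⟩ := hvd j hj
      exact ⟨β, fun h => absurd h hj, fun _ => hβ⟩
  choose β hβ0 hβ1 using hβ
  have hpv : (p : ℤ) ^ v ≠ 0 := pow_ne_zero _ (by exact_mod_cast hp.ne_zero)
  have hβj0 : ((β j0 : ℤ) : ZMod p) ≠ 0 := by
    intro h1
    rw [ZMod.intCast_zmod_eq_zero_iff_dvd] at h1
    apply hvj0
    rw [hβ1 j0 hj0, pow_succ]
    exact mul_dvd_mul_left _ h1
  -- the exceptional set
  set Ω : Finset (Fin (d + 2) → ZMod p) :=
    ((Finset.Ioo 0 b).biUnion fun n => univ.filter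
      (fun z => z 0 = 0 ∧ ∑ j, ((y n j : ℤ) : ZMod p) * z j = 0)) ∪
    univ.filter (fun z => z 0 = 0 ∧ ∑ j, ((β j : ℤ) : ZMod p) * z j = 0) with hΩ
  refine ⟨b, v, y b 0, Ω, (Nat.mul_le_mul_left l hbT).trans hlT, ?_, ?_⟩
  · have h1 : Ω.card ≤ b * p ^ d := by
      rw [hΩ]
      refine (Finset.card_union_le _ _).trans ?_
      have h2 : ((Finset.Ioo 0 b).biUnion fun n => univ.filter
          (fun z : Fin (d + 2) → ZMod p => z 0 = 0 ∧
            ∑ j, ((y n j : ℤ) : ZMod p) * z j = 0)).card ≤ (b - 1) * p ^ d := by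
        refine (Finset.card_biUnion_le_card_mul _ _ (p ^ d) fun n hn => ?_).trans ?_
        · rw [Finset.mem_Ioo] at hn
          exact card_plane p d _ (hmin n hn.1 hn.2)
        · rw [Nat.card_Ioo, Nat.sub_zero]
      have h3 := card_plane p d (fun j => ((β j : ℤ) : ZMod p)) ⟨j0, hj0, hβj0⟩
      have h4 : b * p ^ d = (b - 1) * p ^ d + p ^ d := by
        obtain ⟨b', hb'⟩ : ∃ b', b = b' + 1 := ⟨b - 1, by omega⟩
        rw [hb', Nat.add_sub_cancel]
        ring
      rw [h4]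
      exact add_le_add h2 h3
    calc l * Ω.card ≤ l * (T * p ^ d) :=
          Nat.mul_le_mul_left _ (h1.trans (Nat.mul_le_mul_right _ hbT))
      _ = (l * T) * p ^ d := by ring
      _ ≤ p * p ^ d := Nat.mul_le_mul_right _ hlT
      _ = p ^ (d + 2 - 1) := by
          rw [show d + 2 - 1 = d + 1 by omega, pow_succ]
          ring
  · intro a ha hna
    have ha0 : a 0 = 0 := by
      have h1 : seq c a ((0 : Fin (d + 2)) : ℕ) = a 0 := seq_init c a 0
      rw [← h1]
      exact ha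
    have hcast : ∀ n, ((seq c a n : ℤ) : ZMod p) = ∑ j, ((y n j : ℤ) : ZMod p) * (a j : ZMod p) := by
      intro n
      rw [seq_lin]
      push_cast
      rfl
    rw [hΩ, Finset.mem_union, Finset.mem_biUnion, not_or] at hna
    obtain ⟨hn1, hn2⟩ := hna
    have hz0 : ((a 0 : ℤ) : ZMod p) = 0 := by rw [ha0, Int.cast_zero]
    refine ⟨hp, hp3, hb1, hv1, hlam, ?_, ha, ?_, ?_⟩
    · intro e
      have h1 : seq c e 0 = e 0 := seq_init c e 0
      rw [h1, seq_lin]
      rw [Fin.sum_univ_succ]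
      have h2 : seq c (Pi.single 0 1) b * e 0 +
          ∑ i : Fin (d + 1), seq c (Pi.single i.succ 1) b * e i.succ - y b 0 * e 0 =
          ∑ i : Fin (d + 1), seq c (Pi.single i.succ 1) b * e i.succ := by
        show y b 0 * e 0 + _ - y b 0 * e 0 = _
        ring
      rw [h2]
      refine Finset.dvd_sum fun i _ => ?_
      exact Dvd.dvd.mul_right (hvd i.succ (Fin.succ_ne_zero i)) _
    · intro n hn hnb hdv
      apply hn1
      refine ⟨n, Finset.mem_Ioo.2 ⟨hn, hnb⟩, Finset.mem_filter.2 ⟨Finset.mem_univ _, hz0, ?_⟩⟩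
      rw [← hcast]
      exact (ZMod.intCast_zmod_eq_zero_iff_dvd _ _).2 hdv
    · intro hdv
      apply hn2
      refine Finset.mem_filter.2 ⟨Finset.mem_univ _, hz0, ?_⟩
      have h1 : seq c a b = (p : ℤ) ^ v * ∑ j, β j * a j := by
        rw [seq_lin, Finset.mul_sum]
        refine Finset.sum_congr rfl fun j _ => ?_
        by_cases hj : j = 0
        · rw [hj, ha0]
          ring
        · have h2 : seq c (Pi.single j 1) b = (p : ℤ) ^ v * β j := hβ1 j hj
          rw [h2]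
          ring
      rw [h1, pow_succ] at hdv
      have h2 := (mul_dvd_mul_iff_left hpv).1 hdv
      have h3 := (ZMod.intCast_zmod_eq_zero_iff_dvd _ _).2 h2
      push_cast at h3
      exact h3


theorem primef : S_PRIMEF := by
  intro d c hd h0 hsq hX
  obtain ⟨d, rfl⟩ : ∃ d', d = d' + 2 := ⟨d - 2, by omega⟩
  obtain ⟨r, hr0, hr⟩ := separable_mod (chi c) hsq
  set G : ℤ[X] := chi c * (expand ℤ 2 (chi c) * cyclotomic 2 ℤ) with hG
  have hGm : G.Monic := (chi_monic c).mul (((chi_monic c).expand (by omega)).mul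
    (cyclotomic.monic 2 ℤ))
  refine ⟨G, 4 + r.natAbs + ((chi c).coeff 0).natAbs, hGm, ?_⟩
  intro p hp hpN hsp
  have hfact : Fact p.Prime := ⟨hp⟩
  have hGne : G.map (Int.castRingHom (ZMod p)) ≠ 0 := (hGm.map _).ne_zero
  have hdv : ∀ z : ℤ, z ≠ 0 → z.natAbs < p → ¬ (p : ℤ) ∣ z := by
    intro z hz hzp hdvd
    have := Int.natAbs_dvd_natAbs.2 hdvd
    rw [Int.natAbs_natCast] at this
    exact absurd (Nat.le_of_dvd (Int.natAbs_pos.2 hz) this) (not_le.2 hzp)
  have hcm : (chi c).map (Int.castRingHom (ZMod p)) = chi (fun i => (c i : ZMod p)) := by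
    rw [chi_map]; rfl
  have e1 : (chi (fun i => (c i : ZMod p))) ∣ G.map (Int.castRingHom (ZMod p)) := by
    rw [← hcm, hG, Polynomial.map_mul]; exact dvd_mul_right _ _
  have e2 : expand (ZMod p) 2 (chi (fun i => (c i : ZMod p))) ∣
      G.map (Int.castRingHom (ZMod p)) := by
    rw [← hcm, ← map_expand, hG, Polynomial.map_mul, Polynomial.map_mul]
    exact (dvd_mul_right _ _).mul_left _
  have e3 : cyclotomic 2 (ZMod p) ∣ G.map (Int.castRingHom (ZMod p)) := by
    rw [← map_cyclotomic 2 (Int.castRingHom (ZMod p)), hG, Polynomial.map_mul,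
      Polynomial.map_mul]
    exact (dvd_mul_left _ _).mul_left _
  have hc0 : ¬ (p : ℤ) ∣ (chi c).coeff 0 := hdv _ h0 (by omega)
  obtain ⟨T, hT, hlT, hdvd⟩ := order_of_splits p 2 (by omega) (by omega) _ (hsp.of_dvd hGne e1)
    (hsp.of_dvd hGne e2) (hsp.of_dvd hGne e3)
    (by
      intro h
      exact absurd (Nat.le_of_dvd (by omega) h) (by omega))
    (by
      rw [← hcm]
      exact hr p hp (hdv r hr0 (by omega)))
    (by
      rw [← hcm, coeff_map, eq_intCast, Ne, ZMod.intCast_zmod_eq_zero_iff_dvd]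
      exact hc0)
  exact prime_core d c hX 2 p hp (by omega) T hT hlT hdvd

end Pool.Agent.W935.SK
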