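import Pool.Agent.W935.SK.Stm2

/-!
# Project SK: the period is large; all moduli divide terms
-/

set_option autoImplicit false

namespace Pool.Agent.W935.SK

open Polynomial Finset Pool.Agent.H884R2.Sko Pool.Agent.H692R2.USS
open scoped Classical

/-- The shift operator on integer sequences. -/
def shZ : Module.End ℤ (ℕ → ℤ) where
  toFun w := fun n => w (n + 1)
  map_add' _ _ := rfl
  map_smul' _ _ := rfl

theorem shZ_pow (k : ℕ) (w : ℕ → ℤ) (n : ℕ) : (shZ ^ k) w n = w (n + k) := by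
  induction k generalizing w n with
  | zero => simp
  | succ k ih =>
    rw [pow_succ, Module.End.mul_apply, ih]
    show w (n + k + 1) = _
    rw [add_assoc]

/-- the functional on polynomials given by a sequence -/
noncomputable def phi (u : ℕ → ℤ) (f : ℤ[X]) : ℤ := (aeval shZ f) u 0

theorem phi_X_pow (u : ℕ → ℤ) (n : ℕ) : phi u (X ^ n) = u n := by
  unfold phi
  rw [map_pow, aeval_X, shZ_pow, zero_add]

theorem phi_add (u : ℕ → ℤ) (f g : ℤ[X]) : phi u (f + g) = phi u f + phi u g := by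
  unfold phi
  rw [map_add]
  rfl

theorem phi_C_mul (u : ℕ → ℤ) (r : ℤ) (f : ℤ[X]) : phi u (C r * f) = r * phi u f := by
  unfold phi
  rw [map_mul, aeval_C, Module.End.mul_apply, Module.algebraMap_end_apply, Pi.smul_apply,
    smul_eq_mul]

theorem phi_sum (u : ℕ → ℤ) {ι : Type} (s : Finset ι) (f : ι → ℤ[X]) :
    phi u (∑ i ∈ s, f i) = ∑ i ∈ s, phi u (f i) := by
  unfold phi
  rw [map_sum, LinearMap.sum_apply, Finset.sum_apply]

theorem chi_kill {d : ℕ} (c : Fin d → ℤ) (u : ℕ → ℤ)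
    (hu : ∀ n, u (n + d) = ∑ i : Fin d, c i * u (n + i)) : (aeval shZ (chi c)) u = 0 := by
  funext n
  unfold chi
  rw [map_sub, map_pow, aeval_X, map_sum, LinearMap.sub_apply, Pi.sub_apply, shZ_pow,
    LinearMap.sum_apply, Finset.sum_apply, hu n, Pi.zero_apply, sub_eq_zero]
  refine Finset.sum_congr rfl fun i _ => ?_
  rw [map_mul, aeval_C, map_pow, aeval_X, Module.End.mul_apply, Module.algebraMap_end_apply,
    Pi.smul_apply, smul_eq_mul, shZ_pow]

theorem phi_chi_mul {d : ℕ} (c : Fin d → ℤ) (u : ℕ → ℤ)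
    (hu : ∀ n, u (n + d) = ∑ i : Fin d, c i * u (n + i)) (g : ℤ[X]) :
    phi u (chi c * g) = 0 := by
  unfold phi
  rw [mul_comm, map_mul, Module.End.mul_apply, chi_kill c u hu, map_zero, Pi.zero_apply]

/-- the terms as combinations of the initial values -/
theorem seq_eq_sum {d : ℕ} (hd : 1 ≤ d) (c a : Fin d → ℤ) (b : ℕ) :
    seq c a b = ∑ i : Fin d, (X ^ b %ₘ chi c).coeff i * a i := by
  have hmon := chi_monic c
  have h1 : phi (seq c a) (X ^ b) = phi (seq c a) (X ^ b %ₘ chi c) := by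
    conv_lhs => rw [← modByMonic_add_div (X ^ b) (chi c)]
    rw [phi_add, phi_chi_mul c _ (seq_sol c a), add_zero]
  rw [phi_X_pow] at h1
  rw [h1]
  have hdeg : (X ^ b %ₘ chi c).natDegree < d := by
    have h2 := natDegree_modByMonic_lt (X ^ b) hmon (by
      intro h
      have := congrArg natDegree h
      rw [chi_natDegree, natDegree_one] at this
      omega)
    rwa [chi_natDegree] at h2
  conv_lhs => rw [as_sum_range_C_mul_X_pow' (X ^ b %ₘ chi c) hdeg]
  rw [phi_sum, ← Fin.sum_univ_eq_sum_range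
    (fun i => phi (seq c a) (C ((X ^ b %ₘ chi c).coeff i) * X ^ i))]
  refine Finset.sum_congr rfl fun i _ => ?_
  rw [phi_C_mul, phi_X_pow, seq_init]

theorem exists_coeff {d : ℕ} (hd : 1 ≤ d) (c : Fin d → ℤ)
    (hnd : ∀ b : ℕ, 1 ≤ b → ∀ r : ℤ, ¬ chi c ∣ X ^ b - C r) (b : ℕ) (hb : 1 ≤ b) :
    ∃ i : Fin d, (i : ℕ) ≠ 0 ∧ seq c (Pi.single i 1) b ≠ 0 := by
  by_contra hcon
  push Not at hcon
  have hcoef : ∀ i : Fin d, (X ^ b %ₘ chi c).coeff i = seq c (Pi.single i 1) b := by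
    intro i
    rw [seq_eq_sum hd c _ b, Finset.sum_eq_single i]
    · rw [Pi.single_eq_same, mul_one]
    · intro j _ hj
      rw [Pi.single_eq_of_ne hj, mul_zero]
    · intro h
      exact absurd (Finset.mem_univ _) h
  have hmon := chi_monic c
  have hr : X ^ b %ₘ chi c = C ((X ^ b %ₘ chi c).coeff 0) := by
    ext n
    rw [coeff_C]
    split_ifs with hn
    · rw [hn]
    · by_cases hnd' : n < d
      · have h1 := hcoef ⟨n, hnd'⟩
        simp only at h1
        rw [h1]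
        exact hcon ⟨n, hnd'⟩ hn
      · apply coeff_eq_zero_of_natDegree_lt
        have h2 := natDegree_modByMonic_lt (X ^ b) hmon (by
          intro h
          have := congrArg natDegree h
          rw [chi_natDegree, natDegree_one] at this
          omega)
        rw [chi_natDegree] at h2
        omega
  apply hnd b hb ((X ^ b %ₘ chi c).coeff 0)
  refine ⟨X ^ b /ₘ chi c, ?_⟩
  rw [← hr, sub_eq_iff_eq_add, add_comm]
  exact (modByMonic_add_div (X ^ b) (chi c)).symm

theorem big_b {d : ℕ} (hd : 1 ≤ d) (c : Fin d → ℤ)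
    (hnd : ∀ b : ℕ, 1 ≤ b → ∀ r : ℤ, ¬ chi c ∣ X ^ b - C r) (M₀ : ℕ) :
    ∃ N₀ : ℕ, ∀ p : ℕ, N₀ < p → ∀ (b v : ℕ) (lam : ℤ), 1 ≤ b → 1 ≤ v →
      (∀ e : Fin d → ℤ, (p : ℤ) ^ v ∣ seq c e b - lam * seq c e 0) → M₀ < b := by
  refine ⟨∑ b ∈ Finset.Icc 1 M₀, ∑ i : Fin d, (seq c (Pi.single i 1) b).natAbs, ?_⟩
  intro p hp b v lam hb hv hper
  by_contra hcon
  obtain ⟨i, hi, hne⟩ := exists_coeff hd c hnd b hb
  have h1 := hper (Pi.single i 1)
  have h2 : seq c (Pi.single i (1 : ℤ)) 0 = 0 := by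
    have := seq_init c (Pi.single i (1 : ℤ)) ⟨0, by omega⟩
    simp only at this
    rw [this, Pi.single_eq_of_ne]
    intro h
    apply hi
    rw [← h]
  rw [h2, mul_zero, sub_zero] at h1
  have h3 : (p : ℤ) ∣ seq c (Pi.single i 1) b := (dvd_pow_self _ (by omega)).trans h1
  have h4 := Int.natAbs_dvd_natAbs.2 h3
  rw [Int.natAbs_natCast] at h4
  have h5 := Nat.le_of_dvd (Int.natAbs_pos.2 hne) h4
  have h6 : (seq c (Pi.single i (1 : ℤ)) b).natAbs ≤
      ∑ i : Fin d, (seq c (Pi.single i 1) b).natAbs :=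
    Finset.single_le_sum (f := fun i => (seq c (Pi.single i (1 : ℤ)) b).natAbs)
      (fun _ _ => Nat.zero_le _) (Finset.mem_univ i)
  have h7 : ∑ i : Fin d, (seq c (Pi.single i (1 : ℤ)) b).natAbs ≤
      ∑ b ∈ Finset.Icc 1 M₀, ∑ i : Fin d, (seq c (Pi.single i 1) b).natAbs :=
    Finset.single_le_sum (f := fun b => ∑ i : Fin d, (seq c (Pi.single i (1 : ℤ)) b).natAbs)
      (fun _ _ => Nat.zero_le _) (Finset.mem_Icc.2 ⟨hb, not_lt.1 hcon⟩)
  omega

theorem seq_shift {R : Type*} [CommRing R] {d : ℕ} (c a : Fin d → R) (m n : ℕ) :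
    seq c (fun i : Fin d => seq c a (m + i)) n = seq c a (m + n) := by
  symm
  apply eq_seq c _ (fun n => seq c a (m + n))
  · intro n
    have := seq_sol c a (m + n)
    rw [← add_assoc, this]
    refine Finset.sum_congr rfl fun i _ => ?_
    rw [add_assoc]
  · intro i
    rfl

end Pool.Agent.W935.SK
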