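import Pool.Agent.W935.SK.Big

/-!
# Project SK: assembly
-/

set_option autoImplicit false

namespace Pool.Agent.W935.SK

open Polynomial Finset Pool.Agent.H884R2.Sko Pool.Agent.H692R2.USS
open scoped Classical

section lin

variable {d : ℕ} (L : (Fin d → ℤ) →ₗ[ℤ] (Fin d → ℤ)) (p : ℕ)

/-- reduction of `L` modulo `p` -/
noncomputable def redL : (Fin d → ZMod p) →ₗ[ZMod p] (Fin d → ZMod p) :=
  Matrix.toLin' ((LinearMap.toMatrix' L).map (Int.castRingHom (ZMod p)))

theorem redL_cast (a : Fin d → ℤ) :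
    redL L p (fun i => (a i : ZMod p)) = fun i => ((L a i : ℤ) : ZMod p) := by
  funext i
  unfold redL
  rw [Matrix.toLin'_apply, Matrix.mulVec, dotProduct]
  have h : L a i = ∑ j, LinearMap.toMatrix' L i j * a j := by
    conv_lhs => rw [← Matrix.toLin'_toMatrix' L]
    rw [Matrix.toLin'_apply, Matrix.mulVec, dotProduct]
  rw [h, Int.cast_sum]
  refine Finset.sum_congr rfl fun j _ => ?_
  rw [Matrix.map_apply, Int.cast_mul]
  rfl

theorem exists_lift [NeZero p] (y : Fin d → ZMod p) :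
    ∃ a : Fin d → ℤ, (fun i => (a i : ZMod p)) = y :=
  ⟨fun i => ((y i).val : ℤ), by
    funext i
    simp⟩

theorem redL_inj [Fact p.Prime]
    (h : ∀ a, (∀ i, (p : ℤ) ∣ L a i) → ∀ i, (p : ℤ) ∣ a i) : Function.Injective (redL L p) := by
  have : NeZero p := ⟨(Fact.out : p.Prime).ne_zero⟩
  rw [← LinearMap.ker_eq_bot, LinearMap.ker_eq_bot']
  intro y hy
  obtain ⟨a, rfl⟩ := exists_lift p y
  rw [redL_cast] at hy
  funext i
  have h1 := h a (fun i => (ZMod.intCast_zmod_eq_zero_iff_dvd _ _).1 (congrFun hy i)) i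
  exact (ZMod.intCast_zmod_eq_zero_iff_dvd _ _).2 h1

end lin

/-- the hyperplane `{a : w_m = 0}` in the box -/
noncomputable def hyp {d : ℕ} (c : Fin d → ℤ) (m : ℤ) (H : ℕ) : Finset (Fin d → ℤ) :=
  (box (0 : Fin d → ℤ) H).filter (fun a => ∃ w, IsBi c a w ∧ w m = 0)

theorem density (h1 : S_SOUND) (h3 : S_PRIME) (h4 : S_CNT) (h5 : S_BI2) (d : ℕ) (hd : 2 ≤ d)
    (c : Fin d → ℤ) (hc : c ⟨d - 1, by omega⟩ ≠ 0)
    (hsq : Squarefree ((charPoly c).map (Int.castRingHom ℚ)))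
    (hnd : ∀ b : ℕ, 1 ≤ b → ∀ r : ℤ, ¬ charPoly c ∣ X ^ b - C r) (m : ℤ)
    (P : (Fin d → ℤ) → Prop)
    (hP : ∀ a, (∃ (N k : ℕ) (s : ℤ) (a' : Fin d → ℤ) (q b v : ℕ) (lam : ℤ), 1 ≤ k ∧ s ≠ 0 ∧
      (∀ i : Fin d, seq (fun i => c (Fin.rev i)) a' (k + i) =
        s * seq (fun i => c (Fin.rev i)) a (N + i)) ∧
      Cert (fun i => c (Fin.rev i)) a' q b v lam) → P a) :
    Filter.Tendsto (fun H : ℕ =>
      (((box (0 : Fin d → ℤ) H).filter (fun a =>
        (∃ w, IsBi c a w ∧ w m = 0) ∧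
          (∀ n : ℕ, seq (fun i => c (Fin.rev i)) a n = 0 ↔ (n : ℤ) = m) ∧ P a)).card : ℝ) /
        ((hyp c m H).card : ℝ)) Filter.atTop (nhds 1) := by
  have hd1 : 1 ≤ d := by omega
  obtain ⟨L, N, k, s, hk, hs, hNk, hLs, hLp, hLw⟩ := h5 d hd1 c hc m
  set c' : Fin d → ℤ := fun i => c (Fin.rev i) with hc'
  rw [charPoly_eq] at hsq
  have hnd' : ∀ b : ℕ, 1 ≤ b → ∀ r : ℤ, ¬ chi c' ∣ X ^ b - C r := by
    intro b hb r
    rw [← charPoly_eq]
    exact hnd b hb r
  have hc0 : (chi c').coeff 0 = - c ⟨d - 1, by omega⟩ := by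
    have h := chi_coeff c' ⟨0, by omega⟩
    simp only at h
    rw [h, hc']
    simp only
    congr 2
  have hcn : (chi c').coeff 0 ≠ 0 := by
    rw [hc0, neg_ne_zero]
    exact hc
  -- the functional
  set f : Fin d → ℤ := fun i => L (Pi.single i 1) ⟨0, by omega⟩ with hf
  have hfa : ∀ a, seq c' (L a) 0 = ∑ i, f i * a i := by
    intro a
    have e1 : seq c' (L a) ((⟨0, by omega⟩ : Fin d) : ℕ) = L a ⟨0, by omega⟩ := seq_init _ _ _
    have e2 : a = ∑ i, a i • (Pi.single i (1 : ℤ) : Fin d → ℤ) := by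
      funext j
      rw [Finset.sum_apply, Finset.sum_eq_single j]
      · simp
      · intro i _ hi
        simp [Ne.symm hi]
      · intro h
        exact absurd (Finset.mem_univ _) h
    have e3 : L a = ∑ i, a i • L (Pi.single i 1) := by
      conv_lhs => rw [e2]
      rw [map_sum]
      refine Finset.sum_congr rfl fun i _ => ?_
      rw [map_smul]
    have e4 : seq c' (L a) 0 = L a ⟨0, by omega⟩ := e1
    rw [e4, e3, Finset.sum_apply]
    refine Finset.sum_congr rfl fun i _ => ?_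
    rw [Pi.smul_apply, smul_eq_mul, mul_comm]
  have hE : ∀ a, (∃ w, IsBi c a w ∧ w m = 0) ↔ ∑ i, f i * a i = 0 := by
    intro a
    rw [← hfa]
    obtain ⟨⟨w, hw⟩, hall⟩ := hLw a
    have hsq : (s : ℚ) ≠ 0 := by exact_mod_cast hs
    constructor
    · rintro ⟨w', hw', h0⟩
      have h2 := (hall w' hw').2 0
      rw [Nat.cast_zero, add_zero, h0, mul_zero] at h2
      exact_mod_cast h2
    · intro h0
      refine ⟨w, hw, ?_⟩
      have h2 := (hall w hw).2 0
      rw [Nat.cast_zero, add_zero, h0, Int.cast_zero] at h2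
      exact (mul_eq_zero.1 h2.symm).resolve_left hsq
  rw [Metric.tendsto_atTop]
  intro ε hε
  obtain ⟨l, hl⟩ := exists_nat_gt ((5 : ℝ) ^ d / ε)
  have hl0 : 0 < l := by
    have : (0 : ℝ) < 5 ^ d / ε := by positivity
    exact_mod_cast this.trans hl
  obtain ⟨N₀, hN₀⟩ := big_b hd1 c' hnd' m.toNat
  obtain ⟨p, hp, hpN, hpc, b, v, lam, Ω, hΩ, hcert⟩ := h3 d c' hd hcn hsq hnd' l N₀ hl0
  have : Fact p.Prime := ⟨hp⟩
  have hpc' : ¬ (p : ℤ) ∣ c ⟨d - 1, by omega⟩ := by
    intro h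
    apply hpc
    rw [hc0]
    exact (dvd_neg).2 h
  have hinj := redL_inj L p (hLp p hp hpc')
  have hsurj : Function.Surjective (redL L p) := LinearMap.injective_iff_surjective.1 hinj
  have : NeZero p := ⟨hp.ne_zero⟩
  have hfp : ∃ i, ¬ (p : ℤ) ∣ f i := by
    by_contra hcon
    push Not at hcon
    obtain ⟨y, hy⟩ := hsurj (Pi.single ⟨0, by omega⟩ 1)
    obtain ⟨a, rfl⟩ := exists_lift p y
    rw [redL_cast] at hy
    have h6 := congrFun hy ⟨0, by omega⟩
    rw [Pi.single_eq_same] at h6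
    have h7 : L a ⟨0, by omega⟩ = ∑ i, f i * a i := by
      rw [← hfa]
      exact (seq_init c' (L a) ⟨0, by omega⟩).symm
    rw [h7] at h6
    have h8 : (p : ℤ) ∣ ∑ i, f i * a i := Finset.dvd_sum fun i _ => (hcon i).mul_right _
    rw [(ZMod.intCast_zmod_eq_zero_iff_dvd _ _).2 h8] at h6
    exact zero_ne_one h6
  set Ω' : Finset (Fin d → ZMod p) := univ.filter (fun y => redL L p y ∈ Ω) with hΩ'
  have hcard : Ω'.card ≤ Ω.card := by
    refine Finset.card_le_card_of_injOn (redL L p) ?_ (hinj.injOn)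
    intro y hy
    rw [hΩ', Finset.coe_filter] at hy
    exact hy.2
  obtain ⟨H₀, hH₀⟩ := h4 d p f l Ω' hd1 hp hfp ((Nat.mul_le_mul_left l hcard).trans hΩ)
  refine ⟨H₀, fun H hH => ?_⟩
  have hcnt := hH₀ H hH
  set E := (box (0 : Fin d → ℤ) H).filter (fun a => ∑ i, f i * a i = 0) with hEdef
  set B := (box (0 : Fin d → ℤ) H).filter (fun a => ∑ i, f i * a i = 0 ∧
      (fun i => (a i : ZMod p)) ∈ Ω') with hBdef
  set G := (box (0 : Fin d → ℤ) H).filter (fun a =>
        (∃ w, IsBi c a w ∧ w m = 0) ∧ (∀ n : ℕ, seq c' a n = 0 ↔ (n : ℤ) = m) ∧ P a) with hGdef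
  have hhyp : hyp c m H = E := by
    unfold hyp
    rw [hEdef]
    exact Finset.filter_congr fun a _ => hE a
  rw [hhyp]
  have hGE : G ⊆ E := by
    intro a ha
    rw [hGdef, Finset.mem_filter] at ha
    obtain ⟨ha1, ⟨w, hw, hw0⟩, -⟩ := ha
    rw [hEdef, Finset.mem_filter]
    exact ⟨ha1, (hE a).1 ⟨w, hw, hw0⟩⟩
  have hEG : E \ G ⊆ B := by
    intro a ha
    rw [Finset.mem_sdiff, hEdef, Finset.mem_filter] at ha
    obtain ⟨⟨ha1, ha2⟩, ha3⟩ := ha
    rw [hBdef, Finset.mem_filter]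
    refine ⟨ha1, ha2, ?_⟩
    by_contra hcon
    apply ha3
    have h0 : seq c' (L a) 0 = 0 := by
      rw [hfa]
      exact ha2
    have hC := hcert (L a) h0 (by
      intro h
      apply hcon
      rw [hΩ', Finset.mem_filter]
      refine ⟨Finset.mem_univ _, ?_⟩
      rw [redL_cast]
      exact h)
    have hne := h1 d c' (L a) p b v lam hd1 hC
    rw [hGdef, Finset.mem_filter]
    obtain ⟨-, hall⟩ := hLw a
    obtain ⟨w, hw, hw0⟩ := (hE a).2 ha2
    obtain ⟨hwn, hwL⟩ := hall w hw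
    -- the values of the shifted sequence
    have hval : ∀ n j : ℕ, (n : ℤ) = m + j → seq c' (L a) j = s * seq c' a n := by
      intro n j hnj
      have h6 := hwL j
      rw [← hnj, hwn n] at h6
      exact_mod_cast h6
    refine ⟨ha1, ⟨w, hw, hw0⟩, fun n => ⟨fun hn => ?_, fun hn => ?_⟩,
      hP a ⟨N, k, s, L a, p, b, v, lam, hk, hs, hLs a, hC⟩⟩
    · by_contra hnm
      rcases lt_or_gt_of_ne hnm with hlt | hgt
      · -- `n < m`
        have hb := hN₀ p hpN b v lam hC.b1 hC.v1 hC.per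
        have h6 := hC.per (fun i : Fin d => seq c' a (n + i))
        rw [seq_shift, seq_shift, add_zero, hn, mul_zero, sub_zero] at h6
        have h7 : (p : ℤ) ∣ seq c' a (n + b) :=
          (dvd_pow_self _ (by have := hC.v1; omega)).trans h6
        have h8 := hval (n + b) ((n : ℤ) + b - m).toNat (by
          push_cast
          omega)
        exact hC.cls ((n : ℤ) + b - m).toNat (by omega) (by omega) (h8 ▸ h7.mul_left s)
      · -- `m < n`
        have h6 := hval n ((n : ℤ) - m).toNat (by omega)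
        rw [hn, mul_zero] at h6
        exact hne _ (by omega) h6
    · have h6 := hwn n
      rw [hn, hw0] at h6
      exact_mod_cast h6.symm
  have hE0 : 0 < E.card := by
    rw [Finset.card_pos]
    refine ⟨0, ?_⟩
    rw [hEdef, Finset.mem_filter, mem_box]
    refine ⟨fun i => ?_, ?_⟩
    · simp
    · simp
  have hE0' : (0 : ℝ) < E.card := by exact_mod_cast hE0
  have c1 : (G.card : ℝ) ≤ E.card := by exact_mod_cast Finset.card_le_card hGE
  have c2 : (E.card : ℝ) ≤ G.card + B.card := by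
    have := Finset.card_sdiff_add_card_eq_card hGE
    have h9 := Finset.card_le_card hEG
    exact_mod_cast (by omega : E.card ≤ G.card + B.card)
  have c3 : (l : ℝ) * B.card ≤ 5 ^ d * E.card := by exact_mod_cast hcnt
  have hl' : (0 : ℝ) < l := by exact_mod_cast hl0
  have hlε : (5 : ℝ) ^ d < ε * l := by
    rw [div_lt_iff₀ hε] at hl
    linarith
  have c4 : (B.card : ℝ) < ε * E.card := by
    have : (l : ℝ) * B.card < l * (ε * E.card) := by
      calc (l : ℝ) * B.card ≤ 5 ^ d * E.card := c3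
        _ < (ε * l) * E.card := mul_lt_mul_of_pos_right hlε hE0'
        _ = l * (ε * E.card) := by ring
    exact lt_of_mul_lt_mul_left this hl'.le
  rw [Real.dist_eq, abs_lt]
  constructor
  · rw [lt_sub_iff_add_lt, lt_div_iff₀ hE0']
    nlinarith
  · rw [sub_lt_iff_lt_add, div_lt_iff₀ hE0']
    nlinarith

end Pool.Agent.W935.SK
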