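import Pool.Agent.W935.SK.Fin
import Pool.Agent.W935.SK.Stm3

/-!
# Project SK: assembly of the quantitative version
-/

set_option autoImplicit false

namespace Pool.Agent.W935.SK

open Polynomial Finset Pool.Agent.H884R2.Sko Pool.Agent.H692R2.USS
open scoped Classical

/-- A certificate with prime at most `y` for the two-sided sequence `w` with initial values `a`:
the integral sequence `s * w (m + n)`, `n ≥ 0`, (with initial values `a'`) satisfies `Cert`. -/
def HasCert {d : ℕ} (c a : Fin d → ℤ) (m : ℤ) (y : ℝ) : Prop :=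
  ∃ (a' : Fin d → ℤ) (s : ℤ) (q b v : ℕ) (lam : ℤ), s ≠ 0 ∧
    (∀ w, IsBi c a w → ∀ n : ℕ,
      ((seq (fun i => c (Fin.rev i)) a' n : ℤ) : ℚ) = (s : ℚ) * w (m + n)) ∧
    (q : ℝ) ≤ y ∧ 2 * b ≤ q ∧ Cert (fun i => c (Fin.rev i)) a' q b v lam

/-- the condition `per` for all terms -/
theorem per_all {d : ℕ} {c a : Fin d → ℤ} {q b v : ℕ} {lam : ℤ} (h : Cert c a q b v lam)
    (e : Fin d → ℤ) (n : ℕ) : (q : ℤ) ^ v ∣ seq c e (n + b) - lam * seq c e n := by
  have h1 := h.per (fun i : Fin d => seq c e (n + i))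
  rw [seq_shift, seq_shift, add_zero] at h1
  exact h1

/-- a certificate excludes zeros also at smaller indices -/
theorem no_before (h1 : S_SOUND) {d : ℕ} (hd : 1 ≤ d) {c y : Fin d → ℤ} {q b v : ℕ} {lam : ℤ}
    (h : Cert c y q b v lam) (s : ℤ) (z : Fin d → ℤ) (t : ℕ) (ht : 1 ≤ t) (hz0 : seq c z 0 = 0)
    (hzt : seq c z t = 0) (hyz : ∀ j : ℕ, seq c y j = s * seq c z (t + j)) : False := by
  have hq := h.pr
  have hqi := Nat.prime_iff_prime_int.mp hq
  have hv := h.v1
  have hmod : ∀ n, (q : ℤ) ∣ seq c z (n + b) - lam * seq c z n := fun n =>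
    (dvd_pow_self _ (by omega)).trans (per_all h z n)
  -- multiples of `b`
  have hstep : ∀ k n, (q : ℤ) ∣ seq c z (n + b * k) - lam ^ k * seq c z n := by
    intro k
    induction k with
    | zero => intro n; simp
    | succ k ih =>
      intro n
      have e1 : n + b * (k + 1) = (n + b * k) + b := by ring
      have h2 := hmod (n + b * k)
      have h3 := (ih n).mul_left lam
      have h4 := dvd_add h2 h3
      rw [e1]
      have e2 : seq c z (n + b * k + b) - lam * seq c z (n + b * k) +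
          lam * (seq c z (n + b * k) - lam ^ k * seq c z n) =
          seq c z (n + b * k + b) - lam ^ (k + 1) * seq c z n := by ring
      rwa [e2] at h4
  have hr : t % b = 0 := by
    by_contra hr
    have hb := h.b1
    have hlt := Nat.mod_lt t (show 0 < b by omega)
    have h2 := hstep (t / b + 1) 0
    rw [hz0, mul_zero, sub_zero, zero_add] at h2
    have e1 : b * (t / b + 1) = t + (b - t % b) := by
      have := Nat.div_add_mod t b
      rw [mul_add, mul_one]
      omega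
    rw [e1] at h2
    refine h.cls (b - t % b) (by omega) (by omega) ?_
    rw [hyz]
    exact h2.mul_left s
  obtain ⟨k, hk⟩ := Nat.dvd_of_mod_eq_zero hr
  -- the certificate at the earlier zero
  have hC : Cert c z q b v lam := by
    refine ⟨h.pr, h.odd, h.b1, h.v1, h.unit, h.per, hz0, ?_, ?_⟩
    · intro n hn hnb hdv
      have h2 := hstep k n
      have h3 : (q : ℤ) ∣ seq c z (n + b * k) := by
        have := dvd_add h2 (hdv.mul_left (lam ^ k))
        rwa [sub_add_cancel] at this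
      apply h.cls n hn hnb
      rw [hyz, hk, add_comm (b * k) n]
      exact h3.mul_left s
    · intro hdv
      -- `D n = (z (n + b) - lam z n) / q ^ v`
      have hD : ∀ n, ∃ D : ℤ, seq c z (n + b) - lam * seq c z n = (q : ℤ) ^ v * D :=
        fun n => per_all h z n
      choose D hD using hD
      have hqv : (q : ℤ) ^ v ≠ 0 := pow_ne_zero _ (by exact_mod_cast hq.ne_zero)
      have hDr : ∀ n, D (n + d) = ∑ i : Fin d, c i * D (n + i) := by
        intro n
        apply mul_left_cancel₀ hqv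
        rw [← hD, Finset.mul_sum]
        have e1 : n + d + b = n + b + d := by ring
        rw [e1, seq_sol, seq_sol, Finset.mul_sum, ← Finset.sum_sub_distrib]
        refine Finset.sum_congr rfl fun i _ => ?_
        have h5 := hD (n + i)
        have e2 : n + (i : ℕ) + b = n + b + i := by ring
        rw [e2] at h5
        linear_combination c i * h5
      have hDs : ∀ n, D n = seq c (fun i : Fin d => D i) n := fun n =>
        eq_seq c _ D hDr (fun i => rfl) n
      have hDmod : ∀ n, (q : ℤ) ∣ D (n + b) - lam * D n := by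
        intro n
        rw [hDs (n + b), hDs n]
        exact (dvd_pow_self _ (by omega)).trans (per_all h _ n)
      have hD0 : (q : ℤ) ∣ D 0 := by
        have h5 := hD 0
        rw [hz0, mul_zero, sub_zero, zero_add] at h5
        rw [h5, pow_succ] at hdv
        exact (mul_dvd_mul_iff_left hqv).1 hdv
      have hDk : ∀ k, (q : ℤ) ∣ D (b * k) := by
        intro k
        induction k with
        | zero => simpa using hD0
        | succ k ih =>
          have e1 : b * (k + 1) = b * k + b := by ring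
          rw [e1]
          have := dvd_add (hDmod (b * k)) (ih.mul_left lam)
          rwa [sub_add_cancel] at this
      apply h.top
      have h6 := hD (b * k)
      rw [← hk, hzt, mul_zero, sub_zero] at h6
      rw [hyz, h6, pow_succ]
      have h7 := hDk k
      rw [← hk] at h7
      exact (mul_dvd_mul_left _ h7).mul_left s
  exact h1 d c z q b v lam hd hC t ht hzt

theorem uniq (h1 : S_SOUND) (h5 : S_BI2) {d : ℕ} (hd : 1 ≤ d) (c : Fin d → ℤ)
    (hc : c ⟨d - 1, by omega⟩ ≠ 0) (a : Fin d → ℤ) (m : ℤ) (y : ℝ)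
    (hw0 : ∃ w, IsBi c a w ∧ w m = 0) (h : HasCert c a m y) (n : ℕ) :
    seq (fun i => c (Fin.rev i)) a n = 0 ↔ (n : ℤ) = m := by
  obtain ⟨a', s, q, b, v, lam, hs, hrel, -, -, hC⟩ := h
  obtain ⟨w, hw, hwm⟩ := hw0
  obtain ⟨_, _, _, _, _, _, _, _, _, hL⟩ := h5 d hd c hc m
  have hwn := ((hL a).2 w hw).1
  have hr := hrel w hw
  set c' : Fin d → ℤ := fun i => c (Fin.rev i) with hc'
  have hval : ∀ n j : ℕ, (n : ℤ) = m + j → seq c' a' j = s * seq c' a n := by
    intro n j hnj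
    have h6 := hr j
    rw [← hnj, hwn n] at h6
    exact_mod_cast h6
  constructor
  · intro hn
    by_contra hnm
    rcases lt_or_gt_of_ne hnm with hlt | hgt
    · obtain ⟨M, hM⟩ := Int.eq_ofNat_of_zero_le (show 0 ≤ m by omega)
      have hMn : n < M := by omega
      have hz : ∀ j, seq c' (fun i : Fin d => seq c' a (n + i)) j = seq c' a (n + j) :=
        fun j => seq_shift c' a n j
      refine no_before h1 hd hC s (fun i : Fin d => seq c' a (n + i)) (M - n) (by omega) ?_ ?_ ?_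
      · rw [hz, add_zero]
        exact hn
      · rw [hz]
        have e1 : n + (M - n) = M := by omega
        have h6 := hwn M
        rw [e1]
        have h7 : w (M : ℤ) = 0 := by
          rw [← hwm, hM]
        rw [h7] at h6
        exact_mod_cast h6.symm
      · intro j
        rw [hz]
        exact hval (n + (M - n + j)) j (by omega)
    · have h6 := hval n ((n : ℤ) - m).toNat (by omega)
      rw [hn, mul_zero] at h6
      exact h1 d c' a' q b v lam hd hC _ (by omega) h6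
  · intro hn
    have h6 := hwn n
    rw [hn, hwm] at h6
    exact_mod_cast h6.symm

theorem halt (h5 : S_BI2) {d : ℕ} (hd : 1 ≤ d) (c : Fin d → ℤ)
    (hc : c ⟨d - 1, by omega⟩ ≠ 0) (a : Fin d → ℤ) (m : ℤ) (y : ℝ) (h : HasCert c a m y) :
    ∃ (N k : ℕ) (s : ℤ) (a' : Fin d → ℤ) (q b v : ℕ) (lam : ℤ), 1 ≤ k ∧ s ≠ 0 ∧
      (∀ i : Fin d, seq (fun i => c (Fin.rev i)) a' (k + i) =
        s * seq (fun i => c (Fin.rev i)) a (N + i)) ∧
      Cert (fun i => c (Fin.rev i)) a' q b v lam := by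
  obtain ⟨a', s, q, b, v, lam, hs, hrel, -, -, hC⟩ := h
  obtain ⟨_, _, _, _, _, _, _, _, _, hL⟩ := h5 d hd c hc m
  obtain ⟨⟨w, hw⟩, hL2⟩ := hL a
  have hwn := (hL2 w hw).1
  have hr := hrel w hw
  refine ⟨(m + max 1 (-m)).toNat, (max 1 (-m)).toNat, s, a', q, b, v, lam, by omega, hs, ?_, hC⟩
  intro i
  have h6 := hr ((max 1 (-m)).toNat + i)
  have e1 : m + (((max 1 (-m)).toNat + (i : ℕ) : ℕ) : ℤ) =
      (((m + max 1 (-m)).toNat + (i : ℕ) : ℕ) : ℤ) := by
    push_cast
    omega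
  rw [e1, hwn] at h6
  exact_mod_cast h6

theorem ev1 (C : ℕ) (α : ℝ) (hα : 0 < α) : ∃ H₁ : ℕ, ∀ H : ℕ, H₁ ≤ H →
    Real.log ((C * H : ℕ) : ℝ) ^ α ≤ Real.log H ^ (α + 1) := by
  have h1 : Filter.Tendsto (fun H : ℕ => Real.log (H : ℝ)) Filter.atTop Filter.atTop :=
    Real.tendsto_log_atTop.comp tendsto_natCast_atTop_atTop
  obtain ⟨H₁, hH₁⟩ := Filter.eventually_atTop.1 (h1.eventually_ge_atTop ((2 : ℝ) ^ α + 1))
  refine ⟨max H₁ (C + 1), fun H hH => ?_⟩
  have hlog := hH₁ H ((le_max_left _ _).trans hH)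
  have hCH : C + 1 ≤ H := (le_max_right _ _).trans hH
  have h2α : (0 : ℝ) < 2 ^ α := by positivity
  have hl1 : 1 ≤ Real.log H := by linarith
  have hl0 : 0 < Real.log H := by linarith
  have hH0 : (0 : ℝ) < H := by
    have : 0 < H := by omega
    exact_mod_cast this
  have h2 : Real.log ((C * H : ℕ) : ℝ) ≤ 2 * Real.log H := by
    rcases Nat.eq_zero_or_pos (C * H) with h | h
    · rw [h, Nat.cast_zero, Real.log_zero]
      linarith
    · have h3 : ((C * H : ℕ) : ℝ) ≤ (H : ℝ) ^ 2 := by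
        rw [sq]
        have : C * H ≤ H * H := Nat.mul_le_mul_right _ (by omega)
        exact_mod_cast this
      have h4 := Real.log_le_log (by exact_mod_cast h) h3
      rw [Real.log_pow] at h4
      exact_mod_cast h4
  rcases le_or_gt 0 (Real.log ((C * H : ℕ) : ℝ)) with h0 | h0
  · calc Real.log ((C * H : ℕ) : ℝ) ^ α ≤ (2 * Real.log H) ^ α :=
          Real.rpow_le_rpow h0 h2 hα.le
      _ = 2 ^ α * Real.log H ^ α := Real.mul_rpow (by norm_num) hl0.le
      _ ≤ Real.log H * Real.log H ^ α :=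
          mul_le_mul_of_nonneg_right (by linarith) (Real.rpow_nonneg hl0.le _)
      _ = Real.log H ^ (α + 1) := by
          rw [Real.rpow_add hl0, Real.rpow_one, mul_comm]
  · exfalso
    have : 1 ≤ C * H ∨ C * H = 0 := by omega
    rcases this with h | h
    · have : 0 ≤ Real.log ((C * H : ℕ) : ℝ) := Real.log_natCast_nonneg _
      linarith
    · rw [h, Nat.cast_zero, Real.log_zero] at h0
      exact lt_irrefl _ h0

theorem ev2 (K δ : ℝ) (hδ : 0 < δ) : ∃ H₁ : ℕ, ∀ H : ℕ, H₁ ≤ H → K ≤ (H : ℝ) ^ δ := by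
  have : Filter.Tendsto (fun y : ℕ => (y : ℝ) ^ δ) Filter.atTop Filter.atTop :=
    (tendsto_rpow_atTop hδ).comp tendsto_natCast_atTop_atTop
  exact Filter.eventually_atTop.1 (this.eventually_ge_atTop K)

theorem quant (hq : S_Q0) (hl : S_LOWB) (h5 : S_BI2) (d : ℕ) (hd : 2 ≤ d)
    (c : Fin d → ℤ) (hc : c ⟨d - 1, by omega⟩ ≠ 0)
    (hsq : Squarefree ((charPoly c).map (Int.castRingHom ℚ)))
    (hnd : ∀ b : ℕ, 1 ≤ b → ∀ r : ℤ, ¬ charPoly c ∣ X ^ b - C r) :
    ∃ α δ : ℝ, 0 < α ∧ 0 < δ ∧ ∀ m : ℤ, ∃ H₀ : ℕ, ∀ H : ℕ, H₀ ≤ H →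
      (((hyp c m H).filter (fun a => ¬ HasCert c a m (Real.log H ^ α))).card : ℝ) ≤
        (H : ℝ) ^ (-δ) * ((hyp c m H).card : ℝ) := by
  have hd1 : 1 ≤ d := by omega
  set c' : Fin d → ℤ := fun i => c (Fin.rev i) with hc'
  rw [charPoly_eq] at hsq
  have hnd' : ∀ b : ℕ, 1 ≤ b → ∀ r : ℤ, ¬ chi c' ∣ X ^ b - C r := by
    intro b hb r
    rw [← charPoly_eq]
    exact hnd b hb r
  have hc0 : (chi c').coeff 0 = - c ⟨d - 1, by omega⟩ := by
    have h := chi_coeff c' ⟨0, by omega⟩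
    simp only at h
    rw [h, hc']
    simp only
    congr 2
  have hcn : (chi c').coeff 0 ≠ 0 := by
    rw [hc0, neg_ne_zero]
    exact hc
  obtain ⟨α₀, δ₀, hα₀, hδ₀, H₀, hQ⟩ := hq d c' hd hcn hsq hnd'
  refine ⟨α₀ + 1, δ₀ / 2, by positivity, by positivity, fun m => ?_⟩
  obtain ⟨L, N, k, s, hk, hs, hNk, hLs, hLp, hLw⟩ := h5 d hd1 c hc m
  -- the functional
  set f : Fin d → ℤ := fun i => L (Pi.single i 1) ⟨0, by omega⟩ with hf
  have hLa : ∀ a j, L a j = ∑ i, a i * L (Pi.single i 1) j := by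
    intro a j
    have e2 : a = ∑ i, a i • (Pi.single i (1 : ℤ) : Fin d → ℤ) := by
      funext j
      rw [Finset.sum_apply, Finset.sum_eq_single j]
      · simp
      · intro i _ hi
        simp [Ne.symm hi]
      · intro h
        exact absurd (Finset.mem_univ _) h
    have e3 : L a = ∑ i, a i • L (Pi.single i 1) := by
      conv_lhs => rw [e2]
      rw [map_sum]
      refine Finset.sum_congr rfl fun i _ => ?_
      rw [map_smul]
    rw [e3, Finset.sum_apply]
    refine Finset.sum_congr rfl fun i _ => ?_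
    rw [Pi.smul_apply, smul_eq_mul]
  have hfa : ∀ a, seq c' (L a) 0 = ∑ i, f i * a i := by
    intro a
    have e1 : seq c' (L a) ((⟨0, by omega⟩ : Fin d) : ℕ) = L a ⟨0, by omega⟩ := seq_init _ _ _
    have e4 : seq c' (L a) 0 = L a ⟨0, by omega⟩ := e1
    rw [e4, hLa]
    refine Finset.sum_congr rfl fun i _ => ?_
    rw [mul_comm]
  have hE : ∀ a, (∃ w, IsBi c a w ∧ w m = 0) ↔ ∑ i, f i * a i = 0 := by
    intro a
    rw [← hfa]
    obtain ⟨⟨w, hw⟩, hall⟩ := hLw a
    have hsq : (s : ℚ) ≠ 0 := by exact_mod_cast hs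
    constructor
    · rintro ⟨w', hw', h0⟩
      have h2 := (hall w' hw').2 0
      rw [Nat.cast_zero, add_zero, h0, mul_zero] at h2
      exact_mod_cast h2
    · intro h0
      refine ⟨w, hw, ?_⟩
      have h2 := (hall w hw).2 0
      rw [Nat.cast_zero, add_zero, h0, Int.cast_zero] at h2
      exact (mul_eq_zero.1 h2.symm).resolve_left hsq
  have hinj : Function.Injective L := by
    rw [← LinearMap.ker_eq_bot, LinearMap.ker_eq_bot']
    intro a ha
    funext i
    by_contra hai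
    obtain ⟨p, hpge, hp⟩ := Nat.exists_infinite_primes
      ((a i).natAbs + (c ⟨d - 1, by omega⟩).natAbs + 1)
    have hdv : ∀ z : ℤ, z ≠ 0 → z.natAbs < p → ¬ (p : ℤ) ∣ z := by
      intro z hz hzp hdvd
      have := Int.natAbs_dvd_natAbs.2 hdvd
      rw [Int.natAbs_natCast] at this
      exact absurd (Nat.le_of_dvd (Int.natAbs_pos.2 hz) this) (not_le.2 hzp)
    exact hdv (a i) hai (by omega) (hLp p hp (hdv _ hc (by omega)) a
      (fun j => by rw [ha]; exact dvd_zero _) i)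
  -- the bound for the entries
  set Cn : ℕ := 1 + ∑ j, ∑ i, (L (Pi.single i 1) j).natAbs with hCn
  have hbd : ∀ H : ℕ, ∀ a ∈ box (0 : Fin d → ℤ) H, L a ∈ box (0 : Fin d → ℤ) (Cn * H) := by
    intro H a ha
    rw [mem_box] at ha ⊢
    intro j
    have h2 : |L a j| ≤ ∑ i, |a i| * |L (Pi.single i 1) j| := by
      rw [hLa]
      refine (Finset.abs_sum_le_sum_abs _ _).trans (le_of_eq ?_)
      exact Finset.sum_congr rfl fun i _ => abs_mul _ _
    have h3 : ∑ i, |a i| * |L (Pi.single i 1) j| ≤ ∑ i, (H : ℤ) * |L (Pi.single i 1) j| := by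
      refine Finset.sum_le_sum fun i _ => mul_le_mul_of_nonneg_right ?_ (abs_nonneg _)
      have := ha i
      simpa using this
    have h4 : ∑ i, |L (Pi.single i 1) j| ≤ (Cn : ℤ) := by
      have h5 : ∑ i, (L (Pi.single i 1) j).natAbs ≤ Cn := by
        rw [hCn]
        have := Finset.single_le_sum (f := fun j => ∑ i, (L (Pi.single i 1) j).natAbs)
          (fun _ _ => Nat.zero_le _) (Finset.mem_univ j)
        omega
      have h6 : ((∑ i, (L (Pi.single i 1) j).natAbs : ℕ) : ℤ) ≤ (Cn : ℤ) := by exact_mod_cast h5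
      push_cast at h6
      simpa using h6
    have h7 : L a j - (0 : Fin d → ℤ) j = L a j := by simp
    rw [h7]
    refine h2.trans (h3.trans ?_)
    rw [← Finset.mul_sum]
    push_cast
    rw [mul_comm (Cn : ℤ)]
    exact mul_le_mul_of_nonneg_left h4 (by positivity)
  obtain ⟨κ, hκ, H₂, hlow⟩ := hl d f hd1
  obtain ⟨H₁, hH₁⟩ := ev1 Cn α₀ hα₀
  obtain ⟨H₃, hH₃⟩ := ev2 ((3 * (Cn : ℝ)) ^ (d - 1) / κ) (δ₀ / 2) (by positivity)
  refine ⟨H₀ + H₁ + H₂ + H₃ + 1, fun H hH => ?_⟩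
  have hCn1 : 1 ≤ Cn := by rw [hCn]; omega
  have hH1 : 1 ≤ H := by omega
  have hHC : H ≤ Cn * H := Nat.le_mul_of_pos_left H hCn1
  have hlowH := hlow H (by omega)
  have hhyp : (hyp c m H).card = ((box (0 : Fin d → ℤ) H).filter
      (fun a => ∑ i, f i * a i = 0)).card := by
    unfold hyp
    congr 1
    exact Finset.filter_congr fun a _ => hE a
  rw [← hhyp] at hlowH
  -- transport of the exceptional set
  have hcard : ((hyp c m H).filter (fun a => ¬ HasCert c a m (Real.log H ^ (α₀ + 1)))).card ≤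
      ((box (0 : Fin d → ℤ) (Cn * H)).filter (fun a => seq c' a 0 = 0 ∧
      ¬ ∃ (p b v : ℕ) (lam : ℤ), (p : ℝ) ≤ Real.log ((Cn * H : ℕ) : ℝ) ^ α₀ ∧ 2 * b ≤ p ∧
        Cert c' a p b v lam)).card := by
    refine Finset.card_le_card_of_injOn L ?_ hinj.injOn
    intro a ha
    rw [Finset.mem_coe, Finset.mem_filter] at ha
    obtain ⟨ha1, ha2⟩ := ha
    unfold hyp at ha1
    rw [Finset.mem_filter] at ha1
    rw [Finset.mem_coe, Finset.mem_filter]
    refine ⟨hbd H a ha1.1, ?_, ?_⟩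
    · rw [hfa]
      exact (hE a).1 ha1.2
    · rintro ⟨p, b, v, lam, hp1, hp2, hC⟩
      apply ha2
      refine ⟨L a, s, p, b, v, lam, hs, fun w hw n => ((hLw a).2 w hw).2 n, ?_, hp2, hC⟩
      exact hp1.trans (hH₁ H (by omega))
  have hQH := hQ (Cn * H) (by omega)
  have hHr : (1 : ℝ) ≤ H := by exact_mod_cast hH1
  have hH0 : (0 : ℝ) < H := by linarith
  have hCr : (1 : ℝ) ≤ Cn := by exact_mod_cast hCn1
  have hC0 : (0 : ℝ) < Cn := by linarith
  have b1 : (2 * ((Cn * H : ℕ) : ℝ) + 1) ^ (d - 1) ≤ (3 * (Cn : ℝ)) ^ (d - 1) * (H : ℝ) ^ (d - 1) := by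
    rw [← mul_pow]
    apply pow_le_pow_left₀ (by positivity)
    push_cast
    nlinarith
  have b2 : ((Cn * H : ℕ) : ℝ) ^ (-δ₀) ≤ (H : ℝ) ^ (-δ₀) := by
    apply Real.rpow_le_rpow_of_nonpos hH0 _ (by linarith)
    exact_mod_cast hHC
  have b3 : (H : ℝ) ^ (-δ₀) = (H : ℝ) ^ (-(δ₀ / 2)) * (H : ℝ) ^ (-(δ₀ / 2)) := by
    rw [← Real.rpow_add hH0]
    congr 1
    ring
  have b4 : (3 * (Cn : ℝ)) ^ (d - 1) / κ * (H : ℝ) ^ (-(δ₀ / 2)) ≤ 1 := by
    rw [Real.rpow_neg hH0.le, ← div_eq_mul_inv, div_le_one (Real.rpow_pos_of_pos hH0 _)]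
    exact hH₃ H (by omega)
  have b5 : (0 : ℝ) < (H : ℝ) ^ (-(δ₀ / 2)) := Real.rpow_pos_of_pos hH0 _
  calc (((hyp c m H).filter (fun a => ¬ HasCert c a m (Real.log H ^ (α₀ + 1)))).card : ℝ)
      ≤ _ := by exact_mod_cast hcard
    _ ≤ (2 * ((Cn * H : ℕ) : ℝ) + 1) ^ (d - 1) * ((Cn * H : ℕ) : ℝ) ^ (-δ₀) := hQH
    _ ≤ ((3 * (Cn : ℝ)) ^ (d - 1) * (H : ℝ) ^ (d - 1)) * (H : ℝ) ^ (-δ₀) :=
        mul_le_mul b1 b2 (Real.rpow_nonneg (by positivity) _) (by positivity)
    _ = (H : ℝ) ^ (-(δ₀ / 2)) * (((3 * (Cn : ℝ)) ^ (d - 1) / κ * (H : ℝ) ^ (-(δ₀ / 2))) *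
          (κ * (H : ℝ) ^ (d - 1))) := by
        rw [b3]
        field_simp
    _ ≤ (H : ℝ) ^ (-(δ₀ / 2)) * (1 * ((hyp c m H).card : ℝ)) := by
        apply mul_le_mul_of_nonneg_left _ b5.le
        exact mul_le_mul b4 hlowH (by positivity) (by norm_num)
    _ = _ := by rw [one_mul]

end Pool.Agent.W935.SK
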