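import Pool.Agent.H884R2.Sko.Density

/-!
# Project SK (MP_8d13b5_lc): the Skolem Problem for sequences with a prescribed zero

`c : Fin d → ℤ` are the coefficients in the indexing of `Pool.Agent.H884R2.Sko.seq`:
`seq c a (n + d) = ∑ i, c i * seq c a (n + i)`, `seq c a i = a i` (`i < d`);
`chi c = X ^ d - ∑ i, C (c i) * X ^ i`.
-/

set_option autoImplicit false

namespace Pool.Agent.W935.SK

open Polynomial Finset Pool.Agent.H884R2.Sko Pool.Agent.H692R2.USS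
open scoped Classical

/-- The certificate: modulo `q ^ v` all sequences are multiplied by `lam` under the shift by `b`;
`0` is a zero, no other index below `b` is a zero modulo `q`, and `u_b` is not divisible by
`q ^ (v + 1)`. -/
structure Cert {d : ℕ} (c a : Fin d → ℤ) (q b v : ℕ) (lam : ℤ) : Prop where
  pr : q.Prime
  odd : 3 ≤ q
  b1 : 1 ≤ b
  v1 : 1 ≤ v
  unit : ¬ (q : ℤ) ∣ lam
  per : ∀ e : Fin d → ℤ, (q : ℤ) ^ v ∣ seq c e b - lam * seq c e 0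
  zero : seq c a 0 = 0
  cls : ∀ n, 0 < n → n < b → ¬ (q : ℤ) ∣ seq c a n
  top : ¬ (q : ℤ) ^ (v + 1) ∣ seq c a b

/-- SOUND: a certificate excludes all other zeros. -/
def S_SOUND : Prop := ∀ (d : ℕ) (c a : Fin d → ℤ) (q b v : ℕ) (lam : ℤ), 1 ≤ d →
  Cert c a q b v lam → ∀ n, 1 ≤ n → seq c a n ≠ 0

/-- ALG: an errorless algorithm that computes the set of all zeros. -/
def S_ALG : Prop := ∃ A : List (ℕ × ℕ) × List (ℕ × ℕ) →. List ℕ, Partrec A ∧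
  (∀ p u, IsLRS p u → ∀ L ∈ A p, ∀ n, u n = 0 ↔ n ∈ L) ∧
  ∀ (d : ℕ) (hd : 1 ≤ d) (c a : Fin d → ℤ), c ⟨d - 1, by omega⟩ ≠ 0 →
    (∃ (N k : ℕ) (s : ℤ) (a' : Fin d → ℤ) (q b v : ℕ) (lam : ℤ), 1 ≤ k ∧ s ≠ 0 ∧
      (∀ i : Fin d, seq (fun i => c (Fin.rev i)) a' (k + i) =
        s * seq (fun i => c (Fin.rev i)) a (N + i)) ∧
      Cert (fun i => c (Fin.rev i)) a' q b v lam) → (A (code c, code a)).Dom

/-- E1: primes for which the shift has small order. -/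
def S_E1 : Prop := ∀ (d : ℕ) (c : Fin d → ℤ), 1 ≤ d → (chi c).coeff 0 ≠ 0 →
  Squarefree ((chi c).map (Int.castRingHom ℚ)) → ∀ l N : ℕ, 1 ≤ l →
  ∃ p : ℕ, p.Prime ∧ N < p ∧ ¬ (p : ℤ) ∣ (chi c).coeff 0 ∧ ∃ T : ℕ, 0 < T ∧ l * T ≤ p ∧
    chi (fun i => (c i : ZMod p)) ∣ X ^ T - 1

/-- PRIME: for the sequences with `u_0 = 0` there is a certificate outside a proportion `1 / l` of
the residue classes modulo `p`. -/
def S_PRIME : Prop := ∀ (d : ℕ) (c : Fin d → ℤ), 2 ≤ d → (chi c).coeff 0 ≠ 0 →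
  Squarefree ((chi c).map (Int.castRingHom ℚ)) →
  (∀ b : ℕ, 1 ≤ b → ∀ r : ℤ, ¬ chi c ∣ X ^ b - C r) → ∀ l N : ℕ, 1 ≤ l →
  ∃ p : ℕ, p.Prime ∧ N < p ∧ ¬ (p : ℤ) ∣ (chi c).coeff 0 ∧ ∃ (b v : ℕ) (lam : ℤ)
    (Ω : Finset (Fin d → ZMod p)), l * Ω.card ≤ p ^ (d - 1) ∧
    ∀ a : Fin d → ℤ, seq c a 0 = 0 → (fun i => (a i : ZMod p)) ∉ Ω → Cert c a p b v lam

/-- CNT: lattice points of a hyperplane in residue classes. -/
def S_CNT : Prop := ∀ (d p : ℕ) (f : Fin d → ℤ) (l : ℕ) (Ω : Finset (Fin d → ZMod p)), 1 ≤ d →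
  p.Prime → (∃ i, ¬ (p : ℤ) ∣ f i) → l * Ω.card ≤ p ^ (d - 1) →
  ∃ H₀ : ℕ, ∀ H : ℕ, H₀ ≤ H →
    l * ((box (0 : Fin d → ℤ) H).filter (fun a => ∑ i, f i * a i = 0 ∧
      (fun i => (a i : ZMod p)) ∈ Ω)).card ≤
    5 ^ d * ((box (0 : Fin d → ℤ) H).filter (fun a => ∑ i, f i * a i = 0)).card

/-- the two-sided rational sequence with coefficients `c_1, ..., c_d` (`c_i` is `c (i-1)`) and
values `a` at `0, ..., d - 1` -/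
def IsBi {d : ℕ} (c a : Fin d → ℤ) (w : ℤ → ℚ) : Prop :=
  (∀ i : Fin d, w ((i : ℕ) : ℤ) = a i) ∧
    ∀ n : ℤ, w (n + d) = ∑ i : Fin d, (c i : ℚ) * w (n + d - 1 - ((i : ℕ) : ℤ))

/-- BI: the two-sided sequence and integral sequences -/
def S_BI : Prop := ∀ (d : ℕ) (hd : 1 ≤ d) (c : Fin d → ℤ), c ⟨d - 1, by omega⟩ ≠ 0 → ∀ m : ℤ,
  ∃ (L : (Fin d → ℤ) →ₗ[ℤ] (Fin d → ℤ)) (N k : ℕ) (s : ℤ), 1 ≤ k ∧ s ≠ 0 ∧
    (∀ a, ∀ i : Fin d, seq (fun i => c (Fin.rev i)) (L a) (k + i) =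
        s * seq (fun i => c (Fin.rev i)) a (N + i)) ∧
    (∀ p : ℕ, p.Prime → ¬ (p : ℤ) ∣ c ⟨d - 1, by omega⟩ → ∀ a, (∀ i, (p : ℤ) ∣ L a i) →
      ∀ i, (p : ℤ) ∣ a i) ∧
    ∀ a, (∃ w, IsBi c a w) ∧ ∀ w, IsBi c a w →
      (w m = 0 ↔ seq (fun i => c (Fin.rev i)) (L a) 0 = 0) ∧
      ((∀ n, 1 ≤ n → seq (fun i => c (Fin.rev i)) (L a) n ≠ 0) → ∀ n : ℤ, m < n → w n ≠ 0)

end Pool.Agent.W935.SK
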